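import Pool.Agent.P.MP_9014a2_lc.R.Avoid
import Pool.Agent.P.MP_9014a2_lc.R.Build
import Pool.Agent.P.MP_9014a2_lc.R.Coh
import Pool.Agent.P.MP_9014a2_lc.R.Fs2
import Pool.Agent.P.MP_9014a2_lc.R.Ind
import Pool.Agent.P.MP_9014a2_lc.R.Inst
import Pool.Agent.P.MP_9014a2_lc.R.Jmp
import Pool.Agent.P.MP_9014a2_lc.R.Low2
import Pool.Agent.P.MP_9014a2_lc.R.Table
import Pool.Agent.P.MP_9014a2_lc.R.Tup
import Pool.Agent.P.MP_9014a2_lc.R.Wp

namespace Pool.Agent.Results.MP_9014a2_lc.FullTable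

open Pool.Agent.P.MP_9014a2_lc

/-- The table of implications between the free set, thin set and Ramsey principles, in all Scott
ideals, and in all Turing ideals except for the pairs (thin at level `k`, free at level `m`) with
`2 ≤ m ≤ k`. -/
theorem result (P Q : Fam) (k m : ℕ∞) (hk : 1 ≤ k) (hm : 1 ≤ m)
    (hP : P = .ramsey → k = 2 ∨ k = ⊤) (hQ : Q = .ramsey → m = 2 ∨ m = ⊤)
    (K : Set (ℕ → Bool) → Prop)
    (hK : K = ScottIdeal ∨ K = TuringIdeal ∧ ¬ (P = .thin ∧ Q = .free ∧ 2 ≤ m ∧ m ≤ k)) :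
    (∀ I, K I → Lvl P.holds I k → Lvl Q.holds I m) ↔ m ≤ k ∧ (Q = .ramsey → P = .ramsey) :=
  RR.table RR.all_rt RR.all_t2 RR.all_jump RR.all_jsc RR.all_fs1 RR.all_fs2
    (RR.all_wit2 RR.all_build (RR.all_low2q RR.all_low2))
    (RR.all_wit3 RR.all_build (RR.all_sp RR.all_wp RR.all_coh RR.all_avoid) RR.all_inst)
    P Q k m hk hm hP hQ K hK

end Pool.Agent.Results.MP_9014a2_lc.FullTable
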